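import Mathlib
import Pool.Agent.Y58.HT.Stm

/-!
# Project HT, block AVT: absolute values small at a transcendental element (helper523, for helper58)
-/

universe u v

namespace Pool.Agent.Y523.HT

open H361P Pool.Agent.Y58.HT

/-- **AVT** -/
theorem t_avt : S_AVT.{u, v} := by
  intro k F _ _ _ t0 ht0
  have hind : AlgebraicIndepOn k id ({t0} : Set F) := by
    have h1 : AlgebraicIndependent k (fun _ : ({t0} : Set F) => t0) :=
      algebraicIndependent_unique_type_iff.2 (by simpa using ht0)
    have h2 : (fun _ : ({t0} : Set F) => t0) = (fun i : ({t0} : Set F) => id (i : F)) := by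
      funext i
      exact (i.2 : (i : F) = t0).symm
    rw [h2] at h1
    exact h1
  obtain ⟨s, hs1, hs2⟩ := exists_isTranscendenceBasis_superset hind
  have ht0s : t0 ∈ s := hs1 rfl
  let x : s → F := fun i => (i : F)
  have hx : IsTranscendenceBasis k x := hs2
  let i0 : s := ⟨t0, ht0s⟩
  let K := IntermediateField.adjoin k (x '' {i | i ≠ i0})
  set t := x i0 with ht
  have htr : Transcendental K t := by
    rw [IntermediateField.transcendental_adjoin_iff]
    exact hx.1.transcendental_adjoin (by simp)
  have halg : Algebra.IsAlgebraic (IntermediateField.adjoin K {t}) F := by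
    have h1 := hx.isAlgebraic_field
    let L := (IntermediateField.adjoin K {t}).restrictScalars k
    have hle : IntermediateField.adjoin k (Set.range x) ≤ L := by
      rw [IntermediateField.adjoin_le_iff]
      rintro _ ⟨i, rfl⟩
      show x i ∈ IntermediateField.adjoin K {t}
      by_cases hi : i = i0
      · rw [hi]; exact IntermediateField.mem_adjoin_simple_self K t
      · have h2 : x i ∈ K := IntermediateField.subset_adjoin k _ ⟨i, hi, rfl⟩
        exact (IntermediateField.adjoin K {t}).algebraMap_mem ⟨x i, h2⟩
    let inc : IntermediateField.adjoin k (Set.range x) →+* IntermediateField.adjoin K {t} :=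
      (IntermediateField.inclusion hle).toRingHom
    let _ : Algebra (IntermediateField.adjoin k (Set.range x)) (IntermediateField.adjoin K {t}) :=
      inc.toAlgebra
    have : IsScalarTower (IntermediateField.adjoin k (Set.range x))
        (IntermediateField.adjoin K {t}) F :=
      IsScalarTower.of_algebraMap_eq (fun y => rfl)
    exact Algebra.IsAlgebraic.extendScalars (R := IntermediateField.adjoin k (Set.range x))
      inc.injective
  obtain ⟨v, hv⟩ := abs_of_simple (K := K) t htr
  exact ⟨v, hv⟩

end Pool.Agent.Y523.HT
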